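import Pool.Agent.Helper76.TL.StC

/-!
# Module EDGE of project TL: values on translated paths with the sign
-/

set_option autoImplicit false

namespace Pool.Agent.Helper52.TL

open Pool.Agent.Helper14.CV (Homog EqC act Tl)
open Pool.Agent.Helper76.TL Pool.Agent.Helper4.TL Pool.Agent.Helper14.W5

private lemma vec_ne {e X Y u1 u2 : ℤ} (hu : u1 ≠ 0 ∨ u2 ≠ 0) :
    u1 + e * X * u2 ≠ 0 ∨ 5 * Y * u1 + (1 + e * 5 * X * Y) * u2 ≠ 0 := by
  by_contra h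
  push Not at h
  obtain ⟨h1, h2⟩ := h
  have e2 : u2 = 0 := by linear_combination h2 - 5 * Y * h1
  have e1 : u1 = 0 := by rw [e2] at h1; linear_combination h1
  rcases hu with hu | hu
  · exact hu e1
  · exact hu e2

theorem hEdgE : StEEdg := by
  intro hPlA hPlU R _ μ r s G hG u1 u2 v1 v2 hu hv x y a b c d hP
  obtain ⟨α, β, γ, δ, hdet, hβ, hγ, h1, h2, h3, h4⟩ :=
    hPlU μ r s x y 1 (x.val : ℤ) (rY5 μ x y) (1 + 5 ^ (μ + 1) * (x.val : ℤ) * rY5 μ x y) a b c d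
      (hPlA μ r s x y) hP
  obtain ⟨k, hk⟩ := hG.2 α β γ δ hdet (by exact_mod_cast hβ) (by exact_mod_cast hγ)
  have key : ∀ w1 w2 : ℤ, (w1 ≠ 0 ∨ w2 ≠ 0) → G (a * w1 + 5 ^ μ * b * w2) (5 * c * w1 + d * w2)
      = eps α β γ δ • G (w1 + 5 ^ μ * (x.val : ℤ) * w2)
        (5 * rY5 μ x y * w1 + (1 + 5 ^ (μ + 1) * (x.val : ℤ) * rY5 μ x y) * w2) + k := by
    intro w1 w2 hw
    have hne := vec_ne (e := 5 ^ μ) (X := (x.val : ℤ)) (Y := rY5 μ x y) hw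
    have hD : (1 + 5 ^ μ * 5 * (x.val : ℤ) * rY5 μ x y) = 1 + 5 ^ (μ + 1) * (x.val : ℤ) * rY5 μ x y := by
      rw [pow_succ]
    rw [hD] at hne
    have := hk _ _ hne
    rw [act] at this
    rw [← Pi.smul_apply, ← Pi.smul_apply, ← this]
    congr 1
    · linear_combination w1 * h1 + w2 * h2
    · linear_combination w1 * h3 + w2 * h4
  have hm := eps_mul (a := α) (b := β) (c := γ) (d := δ) (a' := 1) (b' := 5 ^ μ * (x.val : ℤ))
    (c' := 5 * rY5 μ x y) (d' := 1 + 5 ^ (μ + 1) * (x.val : ℤ) * rY5 μ x y)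
    (by rw [hdet]; decide)
    (by
      have e : (1 : ℤ) * (1 + 5 ^ (μ + 1) * (x.val : ℤ) * rY5 μ x y) -
          5 ^ μ * (x.val : ℤ) * (5 * rY5 μ x y) = 1 := by ring
      rw [e]; decide)
  rw [← h1, ← h2, ← h3, ← h4] at hm
  have hs := eps_sq α β γ δ
  rw [key u1 u2 hu, key v1 v2 hv, add_sub_add_right_eq_sub, ← smul_sub, smul_smul, hm, edgeE, edge5]
  congr 1
  linear_combination (-eps 1 (5 ^ μ * (x.val : ℤ)) (5 * rY5 μ x y)
    (1 + 5 ^ (μ + 1) * (x.val : ℤ) * rY5 μ x y)) * hs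

end Pool.Agent.Helper52.TL
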